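import Pool.Agent.W2helper18.KG.Stm

set_option autoImplicit false

open MeasureTheory Finset Filter

namespace Pool.Agent.W2helper78.KG
open Pool.Agent.W2helper18.KG

lemma nr2_core (y : ℝ) (e v : ℕ) (u : ℤ) (ε : ℝ) (hε : 0 < ε) (hε8 : ε ≤ 1/8) (hv : 1 ≤ v)
    (huv : |(v:ℝ)*y - u| < 2*ε) (h : ℝ) (hh : 0 < h) (hvh : |(v:ℝ)*y - u| = v * h)
    (S : Finset ℕ) (hS : ∀ m ∈ S, m < e ∧ ∃ k : ℤ, |(m:ℝ)*y - k| < ε) :
    (S.card : ℝ) ≤ 16 * ε * e + (2*ε/h + v) := by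
  have hv0 : (0:ℝ) < v := by exact_mod_cast hv
  set t : ℕ := ⌈2*ε/(v*h)⌉₊ with ht
  have hvh0 : 0 < v*h := by positivity
  have ht1 : 2*ε/(v*h) ≤ t := Nat.le_ceil _
  have ht2 : (t:ℝ) < 2*ε/(v*h) + 1 := Nat.ceil_lt_add_one (by positivity)
  have hw1 : 2*ε ≤ t * (v*h) := by rwa [div_le_iff₀ hvh0] at ht1
  have hw2 : t * (v*h) < 4*ε := by
    have := mul_lt_mul_of_pos_right ht2 hvh0
    rw [add_mul, div_mul_cancel₀ _ hvh0.ne', one_mul] at this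
    rw [hvh] at huv
    linarith
  set J : ℕ := ⌊1/(8*ε)⌋₊ with hJ
  have hJ1 : (J:ℝ) ≤ 1/(8*ε) := Nat.floor_le (by positivity)
  have hJ2 : 1/(8*ε) < J + 1 := Nat.lt_floor_add_one _
  have h8 : 1 ≤ 1/(8*ε) := by rw [le_div_iff₀ (by positivity)]; linarith
  have hJpos : 1 ≤ J := by
    rw [hJ]; exact Nat.le_floor (by simpa using h8)
  have hJr : (1:ℝ) ≤ J := by exact_mod_cast hJpos
  have hJ3 : 1/(16*ε) ≤ J := by
    have : 1/(16*ε) = (1/(8*ε))/2 := by field_simp; norm_num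
    linarith
  have hJ4 : (J:ℝ)*(4*ε) ≤ 1/2 := by
    rw [le_div_iff₀ (by positivity)] at hJ1; linarith
  -- injectivity
  have key : ∀ m ∈ S, ∀ m' ∈ S, ∀ j < J, ∀ j' < J, j < j' →
      m + j*(v*t) = m' + j'*(v*t) → False := by
    intro m hm m' hm' j hj j' hj' hjj heq
    obtain ⟨_, k, hk⟩ := hS m hm
    obtain ⟨_, k', hk'⟩ := hS m' hm'
    obtain ⟨d, hd⟩ := Nat.exists_eq_add_of_lt hjj
    have heqR : (m:ℝ) + j*(v*t) = m' + j'*(v*t) := by exact_mod_cast heq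
    have hj'R : (j':ℝ) = j + (d+1) := by rw [hd]; push_cast; ring
    have hmm : (m:ℝ) - m' = (d+1)*(v*t) := by rw [hj'R] at heqR; linarith
    have hd1 : (1:ℝ) ≤ (d:ℝ)+1 := by have : (0:ℝ) ≤ d := Nat.cast_nonneg d; linarith
    have hdJ : (d:ℝ)+1 ≤ J := by
      have : d + 1 ≤ J := by omega
      exact_mod_cast this
    have hab : |((d:ℝ)+1)*t*((v:ℝ)*y - u)| = ((d:ℝ)+1)*(t*(v*h)) := by
      rw [abs_mul, hvh, abs_of_nonneg (by positivity)]; ring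
    have hlow : 2*ε ≤ ((d:ℝ)+1)*(t*(v*h)) := by nlinarith
    have hup : ((d:ℝ)+1)*(t*(v*h)) ≤ 1/2 := by
      have : ((d:ℝ)+1)*(t*(v*h)) ≤ J*(4*ε) :=
        mul_le_mul hdJ hw2.le (by positivity) (by positivity)
      linarith
    have hr : |((m:ℝ)*y - k) - ((m':ℝ)*y - k')| < 2*ε := by
      have := abs_sub (( m:ℝ)*y - k) ((m':ℝ)*y - k')
      linarith
    have hz : ((k - k' - (d+1)*t*u : ℤ) : ℝ) =
        ((d:ℝ)+1)*t*((v:ℝ)*y - u) - (((m:ℝ)*y - k) - ((m':ℝ)*y - k')) := by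
      push_cast
      have : (m:ℝ)*y - m'*y = ((d:ℝ)+1)*(v*t)*y := by rw [← hmm]; ring
      linear_combination this
    have hz1 : |((k - k' - (d+1)*t*u : ℤ) : ℝ)| < 1 := by
      rw [hz]
      have := abs_sub (((d:ℝ)+1)*t*((v:ℝ)*y - u)) (((m:ℝ)*y - k) - ((m':ℝ)*y - k'))
      rw [hab] at this
      linarith
    have hz0 : (k - k' - (d+1)*t*u : ℤ) = 0 := by
      rw [← Int.abs_lt_one_iff]; exact_mod_cast hz1
    rw [hz0] at hz
    have : ((d:ℝ)+1)*t*((v:ℝ)*y - u) = (((m:ℝ)*y - k) - ((m':ℝ)*y - k')) := by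
      push_cast at hz; linarith
    rw [this] at hab
    linarith
  have hinj : Set.InjOn (fun p : ℕ × ℕ => p.1 + p.2 * (v*t))
      ((S ×ˢ range J : Finset (ℕ×ℕ)) : Set (ℕ × ℕ)) := by
    rintro ⟨m, j⟩ hp ⟨m', j'⟩ hp' heq
    simp only [Finset.coe_product, Set.mem_prod, Finset.mem_coe, Finset.mem_range] at hp hp'
    simp only at heq
    rcases lt_trichotomy j j' with hlt | hEq | hgt
    · exact (key m hp.1 m' hp'.1 j hp.2 j' hp'.2 hlt heq).elim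
    · subst hEq
      have : m = m' := by omega
      rw [this]
    · exact (key m' hp'.1 m hp.1 j' hp'.2 j hp.2 hgt heq.symm).elim
  have hcard : (S ×ˢ range J).card ≤ (range (e + J*(v*t))).card := by
    apply Finset.card_le_card_of_injOn _ _ hinj
    rintro ⟨m, j⟩ hp
    simp only [Finset.coe_product, Set.mem_prod, Finset.mem_coe, Finset.mem_range] at hp ⊢
    have h1 := (hS m hp.1).1
    have h2 : j * (v*t) ≤ J*(v*t) := Nat.mul_le_mul_right _ hp.2.le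
    omega
  rw [Finset.card_product, Finset.card_range, Finset.card_range] at hcard
  have hcR : (S.card:ℝ) * J ≤ e + J*(v*t) := by exact_mod_cast hcard
  have hwle : (v:ℝ)*t ≤ 2*ε/h + v := by
    have : (v:ℝ)*t < v*(2*ε/(v*h) + 1) := mul_lt_mul_of_pos_left ht2 hv0
    have h3 : (v:ℝ)*(2*ε/(v*h) + 1) = 2*ε/h + v := by field_simp
    linarith
  have heJ : (e:ℝ) ≤ 16*ε*e*J := by
    have : 1 ≤ 16*ε*J := by
      rw [div_le_iff₀ (by positivity)] at hJ3; linarith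
    have he0 : (0:ℝ) ≤ e := Nat.cast_nonneg e
    nlinarith
  have hfin : (S.card:ℝ) * J ≤ (16 * ε * e + (2*ε/h + v)) * J := by
    calc (S.card:ℝ) * J ≤ e + J*(v*t) := hcR
      _ ≤ 16*ε*e*J + J*(2*ε/h + v) := by
        have := mul_le_mul_of_nonneg_left hwle (by positivity : (0:ℝ) ≤ J)
        linarith
      _ = _ := by ring
  exact le_of_mul_le_mul_right hfin (by positivity)

open Classical in
theorem p_nr2 : P_NR2 := by
  intro y e v u he hv hve huv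
  have hE : (10:ℝ)^40 ≤ (e:ℝ) := by exact_mod_cast he
  have hE1 : (1:ℝ) ≤ e := le_trans (by norm_num) hE
  have hE0 : (0:ℝ) < e := by linarith
  have hv0 : (0:ℝ) < v := by exact_mod_cast hv
  set ε : ℝ := (e:ℝ) ^ (-(1/8):ℝ) with hεdef
  have hε : 0 < ε := Real.rpow_pos_of_pos hE0 _
  have hε8 : ε ≤ 1/8 := by
    have h1 : ε ≤ ((10:ℝ)^40) ^ (-(1/8):ℝ) :=
      Real.rpow_le_rpow_of_nonpos (by positivity) hE (by norm_num)
    have h2 : ((10:ℝ)^40) ^ (-(1/8):ℝ) = (10:ℝ)^(-5:ℝ) := by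
      rw [← Real.rpow_natCast, ← Real.rpow_mul (by norm_num)]; norm_num
    have h3 : (10:ℝ)^(-5:ℝ) ≤ 1/8 := by
      rw [show (-5:ℝ) = ((-5:ℤ):ℝ) by norm_num, Real.rpow_intCast]; norm_num
    linarith
  set S := ((Ico 1 e).filter fun m : ℕ => (∃ k : ℤ, |(m : ℝ) * y - k| < ε) ∧
      1 / (2 * (v : ℝ)) ≤ m * |y - u / v|) with hSdef
  rcases S.eq_empty_or_nonempty with hemp | ⟨m0, hm0⟩
  · rw [hemp]; simp; positivity
  · have hm0' := (Finset.mem_filter.mp hm0)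
    have hm0e : (m0:ℝ) < e := by exact_mod_cast (Finset.mem_Ico.mp hm0'.1).2
    have hm01 : (1:ℝ) ≤ m0 := by exact_mod_cast (Finset.mem_Ico.mp hm0'.1).1
    have hlow := hm0'.2.2
    set h : ℝ := |y - u/v| with hh
    have hh0 : 0 < h := by
      by_contra hcon
      have h0 : h = 0 := le_antisymm (not_lt.mp hcon) (abs_nonneg _)
      rw [h0, mul_zero] at hlow
      have : (0:ℝ) < 1/(2*v) := by positivity
      linarith
    have hvh : |(v:ℝ)*y - u| = v*h := by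
      have : (v:ℝ)*y - u = v*(y - u/v) := by field_simp
      rw [this, abs_mul, abs_of_pos hv0]
    have hcore := nr2_core y e v u ε hε hε8 hv huv h hh0 hvh S (by
      intro m hm
      have := (Finset.mem_filter.mp hm)
      exact ⟨(Finset.mem_Ico.mp this.1).2, this.2.1⟩)
    have hinv : 2*ε/h ≤ 4*ε*v*e := by
      rw [div_le_iff₀ hh0]
      have h1 : 1 ≤ (2*v)*(m0*h) := by
        rw [div_le_iff₀ (by positivity)] at hlow; linarith
      have h2 : (2*v)*(m0*h) ≤ (2*v)*(e*h) := by gcongr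
      have h3 : 1 ≤ (2*v)*((e:ℝ)*h) := h1.trans h2
      have h4 : 2*ε*1 ≤ 2*ε*((2*v)*((e:ℝ)*h)) := mul_le_mul_of_nonneg_left h3 (by positivity)
      linarith
    have e1 : ε*e = (e:ℝ)^(56/64:ℝ) := by
      rw [hεdef]
      nth_rw 2 [← Real.rpow_one (e:ℝ)]
      rw [← Real.rpow_add hE0]; norm_num
    have e2 : (e:ℝ)^(56/64:ℝ) ≤ (e:ℝ)^(57/64:ℝ) :=
      Real.rpow_le_rpow_of_exponent_le hE1 (by norm_num)
    have e3 : (e:ℝ)^(1/64:ℝ) ≤ (e:ℝ)^(57/64:ℝ) :=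
      Real.rpow_le_rpow_of_exponent_le hE1 (by norm_num)
    have e4 : (e:ℝ)^(1/64:ℝ) * (e:ℝ)^(56/64:ℝ) = (e:ℝ)^(57/64:ℝ) := by
      rw [← Real.rpow_add hE0]; norm_num
    have e5 : v*(ε*e) ≤ (e:ℝ)^(57/64:ℝ) := by
      rw [e1, ← e4]; gcongr
    calc (S.card:ℝ) ≤ 16 * ε * e + (2*ε/h + v) := hcore
      _ ≤ 21 * (e : ℝ) ^ (57 / 64 : ℝ) := by
        have a1 : 16*ε*e ≤ 16*(e:ℝ)^(57/64:ℝ) := by
          rw [mul_assoc, e1]; linarith
        have a2 : 4*ε*v*e ≤ 4*(e:ℝ)^(57/64:ℝ) := by linarith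
        linarith

end Pool.Agent.W2helper78.KG
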