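import Pool.Agent.W2helper18.KG.Stm

set_option autoImplicit false

open MeasureTheory Finset Filter

namespace Pool.Agent.W2helper78.KG
open Pool.Agent.W2helper18.KG

/-- `m` is an admissible small close denominator at scale `e` -/
def QQ (y1 y2 : ℝ) (e m : ℕ) : Prop :=
  1 ≤ m ∧ (m : ℝ) < (e : ℝ) ^ (1 / 64 : ℝ) ∧ Near y1 y2 (2 * (e : ℝ) ^ (-(1 / 8) : ℝ)) m

lemma str_exists (y1 y2 : ℝ) : ∃ (v : ℕ → ℕ) (u1 u2 : ℕ → ℤ), ∀ e, (∃ m, QQ y1 y2 e m) →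
    1 ≤ v e ∧ (v e : ℝ) < (e : ℝ) ^ (1 / 64 : ℝ) ∧
    |(v e : ℝ) * y1 - u1 e| < 2 * (e : ℝ) ^ (-(1 / 8) : ℝ) ∧
    |(v e : ℝ) * y2 - u2 e| < 2 * (e : ℝ) ^ (-(1 / 8) : ℝ) ∧
    ∀ m, QQ y1 y2 e m → v e ≤ m := by
  classical
  have : ∀ e : ℕ, ∃ (w : ℕ × ℤ × ℤ), (∃ m, QQ y1 y2 e m) →
    1 ≤ w.1 ∧ (w.1 : ℝ) < (e : ℝ) ^ (1 / 64 : ℝ) ∧
    |(w.1 : ℝ) * y1 - w.2.1| < 2 * (e : ℝ) ^ (-(1 / 8) : ℝ) ∧
    |(w.1 : ℝ) * y2 - w.2.2| < 2 * (e : ℝ) ^ (-(1 / 8) : ℝ) ∧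
    ∀ m, QQ y1 y2 e m → w.1 ≤ m := by
    intro e
    by_cases h : ∃ m, QQ y1 y2 e m
    · have hf := Nat.find_spec h
      obtain ⟨h1, h2, k1, k2, hk1, hk2⟩ := hf
      exact ⟨(Nat.find h, k1, k2), fun _ => ⟨h1, h2, hk1, hk2, fun m hm => Nat.find_min' h hm⟩⟩
    · exact ⟨(1, 0, 0), fun h' => (h h').elim⟩
  choose w hw using this
  exact ⟨fun e => (w e).1, fun e => (w e).2.1, fun e => (w e).2.2, hw⟩

lemma str_red (v m : ℕ) (k u : ℤ) (y ε : ℝ) (hv : 1 ≤ v) (hvε : v * ε ≤ 1/2)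
    (hk : |(m:ℝ) * y - k| < ε) (hm : m * |y - u / v| < 1 / (2 * (v:ℝ))) :
    (m : ℤ) * u = v * k := by
  have hv0 : (0:ℝ) < v := by exact_mod_cast hv
  have h1 : (((m:ℤ) * u - v * k : ℤ) : ℝ) = v * ((m:ℝ)*y - k) - v * (m * (y - u/v)) := by
    push_cast; field_simp; ring
  have h2 : |(((m:ℤ) * u - v * k : ℤ) : ℝ)| < 1 := by
    rw [h1]
    have a1 := abs_sub ((v:ℝ) * ((m:ℝ)*y - k)) (v * (m * (y - u/v)))
    have a2 : |(v:ℝ) * ((m:ℝ)*y - k)| < 1/2 := by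
      rw [abs_mul, abs_of_pos hv0]
      have := mul_lt_mul_of_pos_left hk hv0
      linarith
    have a3 : |(v:ℝ) * (m * (y - u/v))| < 1/2 := by
      rw [abs_mul, abs_of_pos hv0, abs_mul, Nat.abs_cast]
      have := mul_lt_mul_of_pos_left hm hv0
      have h4 : (v:ℝ) * (1/(2*v)) = 1/2 := by field_simp
      linarith
    linarith
  have h3 : ((m:ℤ) * u - v * k : ℤ) = 0 := by
    rw [← Int.abs_lt_one_iff]; exact_mod_cast h2
  linarith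

open Classical in
theorem p_str : P_NR1 → P_NR2 → P_STR := by
  intro hN1 hN2 y1 y2
  obtain ⟨v, u1, u2, hv⟩ := str_exists y1 y2
  have hsum : Summable (fun e : ℕ => (e:ℝ)^(-(65/64):ℝ)) :=
    Real.summable_nat_rpow.mpr (by norm_num)
  refine ⟨1 + 42 * ∑' e : ℕ, (e:ℝ)^(-(65/64):ℝ), 10^40, fun e => ∃ m, QQ y1 y2 e m, v, u1, u2,
    ?_, by norm_num, ?_, ?_⟩
  · have : 0 ≤ ∑' e : ℕ, (e:ℝ)^(-(65/64):ℝ) := tsum_nonneg (fun e => by positivity)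
    linarith
  · intro e hP
    obtain ⟨h1, h2, h3, h4, h5⟩ := hv e hP
    refine ⟨h1, ?_⟩
    rintro g ⟨v', hv'⟩ ⟨a, ha⟩ ⟨b, hb⟩
    have hv'1 : 1 ≤ v' := by
      rcases Nat.eq_zero_or_pos v' with h | h
      · rw [h] at hv'; omega
      · exact h
    have hg1 : 1 ≤ g := by
      rcases Nat.eq_zero_or_pos g with h | h
      · rw [h] at hv'; omega
      · exact h
    have hgR : (1:ℝ) ≤ g := by exact_mod_cast hg1
    have hle : v' ≤ v e := by rw [hv']; exact Nat.le_mul_of_pos_left _ hg1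
    have hleR : (v':ℝ) ≤ v e := by exact_mod_cast hle
    have hvR : (v e : ℝ) = g * v' := by exact_mod_cast hv'
    have haR : (u1 e : ℝ) = g * a := by rw [ha]; push_cast; ring
    have hbR : (u2 e : ℝ) = g * b := by rw [hb]; push_cast; ring
    have hQ : QQ y1 y2 e v' := by
      refine ⟨hv'1, lt_of_le_of_lt hleR h2, a, b, ?_, ?_⟩
      · have : (v e:ℝ)*y1 - u1 e = g * (v' * y1 - a) := by rw [hvR, haR]; ring
        rw [this, abs_mul, Nat.abs_cast] at h3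
        have := mul_le_mul_of_nonneg_right hgR (abs_nonneg ((v':ℝ)*y1 - a))
        linarith
      · have : (v e:ℝ)*y2 - u2 e = g * (v' * y2 - b) := by rw [hvR, hbR]; ring
        rw [this, abs_mul, Nat.abs_cast] at h4
        have := mul_le_mul_of_nonneg_right hgR (abs_nonneg ((v':ℝ)*y2 - b))
        linarith
    have h6 := h5 v' hQ
    have h7 : g * v' ≤ 1 * v' := by rw [← hv']; omega
    have := Nat.le_of_mul_le_mul_right h7 hv'1
    omega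
  · intro n
    have hterm : ∀ e ∈ Ico (10^40) n,
        ((((Ico 1 e).filter fun m : ℕ => ∃ k1 k2 : ℤ,
          |(m : ℝ) * y1 - k1| < (e : ℝ) ^ (-(1 / 8) : ℝ) ∧
          |(m : ℝ) * y2 - k2| < (e : ℝ) ^ (-(1 / 8) : ℝ) ∧
          ¬ ((∃ m, QQ y1 y2 e m) ∧ (m : ℤ) * u1 e = v e * k1 ∧
            (m : ℤ) * u2 e = v e * k2)).card : ℕ) : ℝ) / (e : ℝ) ^ 2
        ≤ 42 * (e:ℝ)^(-(65/64):ℝ) := by
      intro e he
      have he40 : 10^40 ≤ e := (Finset.mem_Ico.mp he).1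
      have hE : (10:ℝ)^40 ≤ (e:ℝ) := by exact_mod_cast he40
      have hE1 : (1:ℝ) ≤ e := le_trans (by norm_num) hE
      have hE0 : (0:ℝ) < e := by linarith
      have he1 : 1 ≤ e := by exact_mod_cast hE1
      have hmain : ((((Ico 1 e).filter fun m : ℕ => ∃ k1 k2 : ℤ,
          |(m : ℝ) * y1 - k1| < (e : ℝ) ^ (-(1 / 8) : ℝ) ∧
          |(m : ℝ) * y2 - k2| < (e : ℝ) ^ (-(1 / 8) : ℝ) ∧
          ¬ ((∃ m, QQ y1 y2 e m) ∧ (m : ℤ) * u1 e = v e * k1 ∧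
            (m : ℤ) * u2 e = v e * k2)).card : ℕ) : ℝ) ≤ 42 * (e:ℝ)^(63/64:ℝ) := by
        by_cases hP : ∃ m, QQ y1 y2 e m
        · obtain ⟨h1, h2, h3, h4, _⟩ := hv e hP
          have hb1 := hN2 y1 e (v e) (u1 e) he40 h1 h2 h3
          have hb2 := hN2 y2 e (v e) (u2 e) he40 h1 h2 h4
          have hvε : (v e : ℝ) * (e : ℝ) ^ (-(1 / 8) : ℝ) ≤ 1/2 := by
            have a1 : (v e : ℝ) * (e : ℝ) ^ (-(1 / 8) : ℝ) ≤
                (e:ℝ)^(1/64:ℝ) * (e : ℝ) ^ (-(1 / 8) : ℝ) := by gcongr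
            have a2 : (e:ℝ)^(1/64:ℝ) * (e : ℝ) ^ (-(1 / 8) : ℝ) = (e:ℝ)^(-(7/64):ℝ) := by
              rw [← Real.rpow_add hE0]; norm_num
            have a3 : (e:ℝ)^(-(7/64):ℝ) ≤ ((10:ℝ)^40)^(-(7/64):ℝ) :=
              Real.rpow_le_rpow_of_nonpos (by positivity) hE (by norm_num)
            have a4 : ((10:ℝ)^40)^(-(7/64):ℝ) = (10:ℝ)^(-(35/8):ℝ) := by
              rw [← Real.rpow_natCast, ← Real.rpow_mul (by norm_num)]; norm_num
            have a5 : (10:ℝ)^(-(35/8):ℝ) ≤ (10:ℝ)^(-1:ℝ) :=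
              Real.rpow_le_rpow_of_exponent_le (by norm_num) (by norm_num)
            have a6 : (10:ℝ)^(-1:ℝ) = 1/10 := by
              rw [Real.rpow_neg_one]; norm_num
            linarith
          have hsub : ((Ico 1 e).filter fun m : ℕ => ∃ k1 k2 : ℤ,
              |(m : ℝ) * y1 - k1| < (e : ℝ) ^ (-(1 / 8) : ℝ) ∧
              |(m : ℝ) * y2 - k2| < (e : ℝ) ^ (-(1 / 8) : ℝ) ∧
              ¬ ((∃ m, QQ y1 y2 e m) ∧ (m : ℤ) * u1 e = v e * k1 ∧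
                (m : ℤ) * u2 e = v e * k2)) ⊆
              ((Ico 1 e).filter fun m : ℕ =>
                (∃ k : ℤ, |(m : ℝ) * y1 - k| < (e : ℝ) ^ (-(1 / 8) : ℝ)) ∧
                1 / (2 * (v e : ℝ)) ≤ m * |y1 - u1 e / v e|) ∪
              ((Ico 1 e).filter fun m : ℕ =>
                (∃ k : ℤ, |(m : ℝ) * y2 - k| < (e : ℝ) ^ (-(1 / 8) : ℝ)) ∧
                1 / (2 * (v e : ℝ)) ≤ m * |y2 - u2 e / v e|) := by
            intro m hm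
            obtain ⟨hmI, k1, k2, hk1, hk2, hnot⟩ := Finset.mem_filter.mp hm
            rw [Finset.mem_union, Finset.mem_filter, Finset.mem_filter]
            by_cases c1 : 1 / (2 * (v e : ℝ)) ≤ m * |y1 - u1 e / v e|
            · exact Or.inl ⟨hmI, ⟨k1, hk1⟩, c1⟩
            · by_cases c2 : 1 / (2 * (v e : ℝ)) ≤ m * |y2 - u2 e / v e|
              · exact Or.inr ⟨hmI, ⟨k2, hk2⟩, c2⟩
              · exact (hnot ⟨hP, str_red (v e) m k1 (u1 e) y1 _ h1 hvε hk1 (not_le.mp c1),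
                  str_red (v e) m k2 (u2 e) y2 _ h1 hvε hk2 (not_le.mp c2)⟩).elim
          have hc := (Finset.card_le_card hsub).trans (Finset.card_union_le _ _)
          have hcR : ((((Ico 1 e).filter fun m : ℕ => ∃ k1 k2 : ℤ,
              |(m : ℝ) * y1 - k1| < (e : ℝ) ^ (-(1 / 8) : ℝ) ∧
              |(m : ℝ) * y2 - k2| < (e : ℝ) ^ (-(1 / 8) : ℝ) ∧
              ¬ ((∃ m, QQ y1 y2 e m) ∧ (m : ℤ) * u1 e = v e * k1 ∧
                (m : ℤ) * u2 e = v e * k2)).card : ℕ) : ℝ) ≤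
              21 * (e : ℝ) ^ (57 / 64 : ℝ) + 21 * (e : ℝ) ^ (57 / 64 : ℝ) := by
            refine le_trans (Nat.cast_le.mpr hc) ?_
            rw [Nat.cast_add]
            exact add_le_add hb1 hb2
          have e2 : (e:ℝ)^(57/64:ℝ) ≤ (e:ℝ)^(63/64:ℝ) :=
            Real.rpow_le_rpow_of_exponent_le hE1 (by norm_num)
          linarith
        · have hb := hN1 y1 y2 e he1 (fun m hm1 hm2 hm3 => hP ⟨m, hm1, hm2, hm3⟩)
          have hsub : ((Ico 1 e).filter fun m : ℕ => ∃ k1 k2 : ℤ,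
              |(m : ℝ) * y1 - k1| < (e : ℝ) ^ (-(1 / 8) : ℝ) ∧
              |(m : ℝ) * y2 - k2| < (e : ℝ) ^ (-(1 / 8) : ℝ) ∧
              ¬ ((∃ m, QQ y1 y2 e m) ∧ (m : ℤ) * u1 e = v e * k1 ∧
                (m : ℤ) * u2 e = v e * k2)) ⊆
              ((Ico 1 e).filter fun m => Near y1 y2 ((e : ℝ) ^ (-(1 / 8) : ℝ)) m) := by
            intro m hm
            obtain ⟨hmI, k1, k2, hk1, hk2, _⟩ := Finset.mem_filter.mp hm
            exact Finset.mem_filter.mpr ⟨hmI, k1, k2, hk1, hk2⟩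
          have hcR : ((((Ico 1 e).filter fun m : ℕ => ∃ k1 k2 : ℤ,
              |(m : ℝ) * y1 - k1| < (e : ℝ) ^ (-(1 / 8) : ℝ) ∧
              |(m : ℝ) * y2 - k2| < (e : ℝ) ^ (-(1 / 8) : ℝ) ∧
              ¬ ((∃ m, QQ y1 y2 e m) ∧ (m : ℤ) * u1 e = v e * k1 ∧
                (m : ℤ) * u2 e = v e * k2)).card : ℕ) : ℝ) ≤
              ((((Ico 1 e).filter fun m => Near y1 y2 ((e : ℝ) ^ (-(1 / 8) : ℝ)) m).card : ℕ) : ℝ) := by
            exact Nat.cast_le.mpr (Finset.card_le_card hsub)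
          have e3 : 0 ≤ (e:ℝ)^(63/64:ℝ) := by positivity
          linarith
      have e5 : (e:ℝ)^(63/64:ℝ) = (e:ℝ)^(-(65/64):ℝ) * (e:ℝ)^2 := by
        rw [← Real.rpow_natCast (e:ℝ) 2, ← Real.rpow_add hE0]; norm_num
      rw [div_le_iff₀ (by positivity), mul_assoc, ← e5]
      exact hmain
    calc _ ≤ ∑ e ∈ Ico (10^40) n, 42 * (e:ℝ)^(-(65/64):ℝ) := Finset.sum_le_sum hterm
      _ = 42 * ∑ e ∈ Ico (10^40) n, (e:ℝ)^(-(65/64):ℝ) := by rw [Finset.mul_sum]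
      _ ≤ 42 * ∑' e : ℕ, (e:ℝ)^(-(65/64):ℝ) := by
        gcongr
        exact hsum.sum_le_tsum _ (fun e _ => by positivity)
      _ ≤ _ := by linarith

end Pool.Agent.W2helper78.KG
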